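import Pool.Agent.H13.LN.Targets

/-! Board lnt_modules, row FCC: crossing changes. -/

set_option autoImplicit false

namespace Pool.Agent.H24.LNT

open Finset Pool.Agent.H59.LIN Pool.Agent.H13.LN

private theorem run_congr {n : ℕ} {α : Type} : ∀ (l l' : List (Fin n × α)),
    l.map Prod.fst = l'.map Prod.fst → run l = run l'
  | [], [], _ => rfl
  | [], _ :: _, h => by simp at h
  | _ :: _, [], h => by simp at h
  | x :: l, y :: l', h => by
    rw [List.map_cons, List.map_cons, List.cons.injEq] at h
    funext p
    show run l (tr x.1 p) = run l' (tr y.1 p)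
    rw [h.1, run_congr l l' h.2]

private theorem knot_congr {n : ℕ} {α : Type} {l l' : List (Fin n × α)}
    (h : l.map Prod.fst = l'.map Prod.fst) (hk : Knot l) : Knot l' := by
  have h1 := run_congr l l' h
  intro p
  obtain ⟨k, hk'⟩ := hk p
  refine ⟨k, ?_⟩
  rw [← h1]
  exact hk'

theorem fcc (hEXA : T_EXA) : T_FCC := by
  intro B _ v d hFT
  obtain ⟨h1, -, -, -, -, h6, -⟩ := hEXA
  have hsplit : ∀ (n : ℕ) (w w' : SWd n) (i : Fin n),
      ext (v n) [] (w ++ (i, none) :: w') = ext (v n) [] (w ++ (i, some true) :: w') -
        ext (v n) [] (w ++ (i, some false) :: w') := by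
    intro n w w' i
    rw [h1, h1 B n (v n) [] w ((i, some true) :: w'), h1 B n (v n) [] w ((i, some false) :: w'),
      ← h6]
    rfl
  have hfst : ∀ (n : ℕ) (w w' : SWd n) (i : Fin n), Knot (w ++ (i, some true) :: w') →
      dbl (w ++ (i, some true) :: w') = d →
      ext (v n) [] (w ++ (i, some true) :: w') = ext (v n) [] (w ++ (i, some false) :: w') := by
    intro n w w' i hk hd
    have hk' : Knot (w ++ (i, (none : Option Bool)) :: w') :=
      knot_congr (by simp) hk
    have hd' : d < dbl (w ++ (i, (none : Option Bool)) :: w') := by
      unfold dbl at hd ⊢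
      rw [List.countP_append, List.countP_cons] at hd ⊢
      simp only [Option.isNone_some, Option.isNone_none, if_true, Bool.false_eq_true,
        if_false] at hd ⊢
      omega
    have h0 := hFT n _ hk' hd'
    rw [hsplit] at h0
    exact sub_eq_zero.1 h0
  refine ⟨hfst, ?_⟩
  intro n
  have hgen : ∀ (b a : SWd n), Knot (a ++ b) → dbl (a ++ b) = d →
      ext (v n) [] (a ++ b) = ext (v n) [] (a ++ lft (flt b)) := by
    intro b
    induction b with
    | nil => intro a _ _; rfl
    | cons x b ih =>
      obtain ⟨i, s⟩ := x
      intro a hk hd
      rcases s with _ | s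
      · have e1 : a ++ (i, none) :: b = (a ++ [(i, none)]) ++ b := by simp
        have e2 : a ++ lft (flt ((i, none) :: b)) = (a ++ [(i, none)]) ++ lft (flt b) := by
          simp [lft, flt]
        rw [e2, e1]
        rw [e1] at hk hd
        exact ih _ hk hd
      · cases s with
        | true =>
          have e1 : a ++ (i, some true) :: b = (a ++ [(i, some true)]) ++ b := by simp
          have e2 : a ++ lft (flt ((i, some true) :: b)) =
              (a ++ [(i, some true)]) ++ lft (flt b) := by
            simp [lft, flt]
          rw [e2, e1]
          rw [e1] at hk hd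
          exact ih _ hk hd
        | false =>
          have hk1 : Knot (a ++ (i, some true) :: b) := knot_congr (by simp) hk
          have hd1 : dbl (a ++ (i, some true) :: b) = d := by
            unfold dbl at hd ⊢
            rw [List.countP_append, List.countP_cons] at hd ⊢
            simpa using hd
          rw [← hfst n a b i hk1 hd1]
          have e1 : a ++ (i, some true) :: b = (a ++ [(i, some true)]) ++ b := by simp
          have e2 : a ++ lft (flt ((i, some false) :: b)) =
              (a ++ [(i, some true)]) ++ lft (flt b) := by
            simp [lft, flt]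
          rw [e2, e1]
          rw [e1] at hk1 hd1
          exact ih _ hk1 hd1
  intro w hk hd
  exact hgen w [] hk hd

end Pool.Agent.H24.LNT
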